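import Pool.Agent.H941.TF.Wrap
import Pool.Agent.H941.QK.Res

set_option autoImplicit false

/-! # The strong motivic monodromy conjecture for forms whose continuous cubic sections are cubic forms

Let `f` be a form of degree `d` in three variables. We assume (`CubicChain`) that the curve `f = 0`
is the union of a curve `H = 0` of degree `e ≥ 3` and of curves `g_1 = 0, …, g_r = 0` such that

* `H = 0` has few bad points (`FewBad`): there are `K ≥ 0` linear forms `l_i` such that each line
  `l_i = 0` has at least `K + 4` different points on `H = 0`, and each singular point of `H = 0` is
  an ordinary double point of this curve (`NodeAt`), or a non-resonant quasi-homogeneous point of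
  `f` (`QHAt`: there is a vector field `θ` with `θ f = 0` and `θ(z) = c z`, which has integer
  weights on the tangent space, and `3 c` is no integer), or the product of the `l_i` is locally at
  this point in the ideal of the partial derivatives of `H` (`JacAt`). So arbitrary singular points
  are allowed, if the degree of `H` is large in comparison with the degrees of their Milnor
  algebras. Or, more generally, the continuous sections of `O(3)` on `H = 0`, which are regular at
  the non-resonant quasi-homogeneous points of `f`, are cubic forms (`Cubic`);
* let `D_j` be the union of `H = 0` and the curves `g_l = 0`, `l < j`. Then `g_j` is irreducible
  and `g_j = 0` has more than `3 deg (g_j)` different points on `D_j`, or `g_j = 0` meets `D_j`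
  only transversally or in non-resonant quasi-homogeneous points of `f`, and `D_j` has degree at
  least four or `g_j` is irreducible;
* `H = 0` has degree at least four and no other singular points than ordinary double points, or the
  linear vector fields which annihilate `f` have trace `0` (`TrZero`). (If there is such a field of
  trace `≠ 0`, then `f ^ (-3/d) dx₀ dx₁ dx₂` is exact.)

The multiplicities of all components in `f` are arbitrary, and so are the singularities of the
curves `g_j = 0` outside of `D_j` (in the first case, all of their singularities and
intersections). So the curve `f = 0` may have singular points which are not quasi-homogeneous.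

We prove Q1 and Q2 for these `f`. The global and the local motivic zeta functions of `f` are
computed from the curve `f = 0` in the projective plane by blowing up points, see `ConeGlobalMot`
and `ConeMot` (for the principal ideal `(f)`). All poles except possibly `-3/d` are known to be
roots of `b_f` (`proj_of`, in the starting library), so that the question is whether `b_f(-3/d) =
0`.

The proof of `b(-3/d) = 0`; put `s = -3/d` and let `s < 0` be no root of `b`:

* `bert`: there is a line which meets the reduced curve `Q = 0` in `N = deg Q` points; let it be
  the line at infinity for the affine coordinates `t = x₀`, `x₁ = 1`, `x = x₂`, such that the given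
  points have different coordinates `t`, and the branches at the double points are not vertical;
* `exact_two'`, `dat`: the functional equation gives (by `root_of_not_exact`, in the library)
  `f ^ s = ∂_t (P f ^ (s - K)) + ∂_x (R f ^ (s - K))` with polynomials; over the field `ℂ(t)` the
  order of the pole along `Q = 0` can be reduced to one;
* `fin_pt2`, `lim_inf'`: let `a_1(t), …, a_N(t)` be the roots of `Q(t, 1, x)`. The residues
  `y_j(t)` of the primitive at these roots satisfy a linear differential system. As all exponents
  are negative, an energy identity shows that they are bounded at all finite points, that they have
  the SAME limit on all branches through a point, and that `y_j = O(t ^ 3)` at infinity;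
* `poly`: so the primitive `f ^ s = ∂_t (p f ^ s / Q) + ∂_x (ρ f ^ s / Q)` has polynomials `p, ρ`.
  By `tends` the residue `y` is a continuous section of `O(3)` on the curve;
* `loc`, `reg_form`: at a non-resonant quasi-homogeneous point, the vector field acts on the
  truncated local ring with eigenvalues that are combinations of the weights; the shifted operator
  is invertible, so that the residue is the restriction of a regular function;
* `bdd_poly_t`, `start_local`: for the bad points, the product of the function `y` with the linear
  forms `l_i` is regular on `H = 0`, since it is in the ideal of the partial derivatives; so it is
  the restriction of a polynomial `B` of degree at most `K + 3` (by the growth at infinity);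
* `strip`: at the points where a line `l_i = 0` meets `H = 0`, the polynomial `B` is `0`; there are
  at least `K + 4` such points on the line, so `l_i` divides `B` modulo `H`. By induction, `y` is
  the restriction of a polynomial `Z` of degree at most three;
* `step`: the function `y - Z` on `g_j = 0` vanishes at the more than `3 deg (g_j)` points where
  the curve meets the previous ones, and is bounded by `t ^ 3`: the product of its values at the
  roots is an entire function of `t` with more zeros than its growth allows; `step2`, `step3`: the
  function `(y - Z) / D_j` on `g_j = 0` has no poles, and it is zero or a constant by its growth at
  infinity. By induction, `y = Z` on `Q = 0`;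
* `endgame`: after subtracting `∂_t (∂_x (Z f ^ s)) - ∂_x (∂_t (Z f ^ s))`, the primitive is a
  vector field without poles which is tangent to `Q = 0`, of the total degree at most two. It
  vanishes if `H = 0` has ordinary double points and degree at least four (`fin_nod`), and
  otherwise it comes from a linear vector field of trace `≠ 0` which annihilates `f` (`fin_lin`);
  this is a contradiction.
-/

namespace Pool.Agent.Results.MP_b07157_ag.CubicChain

open MvPolynomial Pool.Agent.W574.CN Pool.Agent.W574.MO Pool.Agent.H628R4.TP
  Pool.Agent.Helper748.MC Pool.Agent.H941.TF
  Pool.Agent.H941.SC Pool.Agent.H941.QH Pool.Agent.H941.QK

/-- **The strong motivic monodromy conjecture (global and local) holds for the forms `f` of degree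
`d` in three variables of the class `CubicChain`: the curve `f = 0` consists of a curve with few
bad points (apart from double points and non-resonant quasi-homogeneous points of `f`), or whose
continuous sections of `O(3)` are cubic forms, and of components which have many points on the
previous ones or meet them transversally or in quasi-homogeneous points**. Here `b` is any
polynomial which satisfies a global or local functional equation `b(s) f ^ s = P(s) f ^ (s + 1)`,
in particular the Bernstein-Sato polynomial of `f` or the local one at the origin, and `Z` is the
global or local motivic zeta function of `f`. The conclusion is that `-3/d` is a root of `b`, and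
that `Z` lies in the ring `M[T][(1 - L⁻ⁿ Tᵃ)⁻¹]`, where the pairs `a, n ≥ 1` are such that `-n/a`
is a root of `b`. -/
theorem result {M : Type} [CommRing M] (L : Mˣ) (f : MvPolynomial (Fin 3) ℂ) (d : ℕ)
    (hf : f.IsHomogeneous d) (h : CubicChain f) (b : Polynomial ℂ)
    (hb : IsBFunction f b ∨ IsLocalBFunction f b) :
    b.eval (-3 / d : ℂ) = 0 ∧ ∀ Z : PowerSeries M,
      (ConeGlobalMot L (fun _ : Unit => f) d Z ∨ ConeMot L (fun _ : Unit => f) d Z) →
        Z ∈ DenRing L (RootPair b) := by
  have hr : IsBFunction f b → b.eval (-3 / d : ℂ) = 0 := fun hb => cubic_single hf h b hb
  exact ⟨hr (glob h.ne hf hb), fun Z hZ => mot_single L f d (h.deg hf) h.ne hf b hb hr Z hZ⟩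

end Pool.Agent.Results.MP_b07157_ag.CubicChain
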