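import Pool.Agent.H940.P.Pole

/-!
# The strong motivic monodromy conjecture for forms with locally weighted homogeneous isolated
singularities

Let `f ≠ 0` be a form of degree `d ≥ 2` in `x_0, …, x_n` such that the hypersurface `{f = 0}` in the
projective space has only isolated singularities, and each of them is weighted homogeneous: after a
formal change of coordinates and up to a unit the germ is a weighted homogeneous polynomial with an
isolated critical point (all weights positive). We prove Q1 and Q2 for `f`. There are no other hypotheses; in
particular it is not assumed that `-(n + 1)/d` is a root of the Bernstein-Sato polynomial, and there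
are forms in the class for which it is not one (for example `x ^ (d - 1) y + z ^ d`, `d ≥ 4`).

Examples. All reduced plane curves with singularities of type `A`, `D`, `E`, ordinary multiple points
which are weighted homogeneous, `x ^ a = y ^ b`, and so on (`n = 2`), for instance all reduced
arrangements of lines, and of lines and conics with quasi-homogeneous singularities; all surfaces in the
projective three-space with rational double points, and so on in all dimensions; all smooth
hypersurfaces.

**Method.** (1) The Jacobian ideal of `f` is of linear type (`lty`): there are `n` combinations of the
partial derivatives which form a regular sequence outside of a divisor, and locally `f` is in the ideal of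
the products of the derivatives and of functions which vanish at the point. (2) Hence
the annihilator of `f ^ s` is generated by operators of order one, up to what is needed for the
following: if `b(s) f ^ s = P(s) f ^ (s + 1)` near the origin, then `b(-(n + 1)/d) = 0`, or there is a vector
field which kills `f` and has a non-zero divergence at the origin (`root_or_field`). (3) In the second
case the linear part of the vector field has a non-zero trace and kills `f`, and so does its semisimple
part. So `f` is homogeneous for a second one-parameter group of linear maps, with weights `a_i` and
degree `e`, where `(∑ a_i)/e ≠ (n + 1)/d` (`exists_second`). (4) The motivic volumes of the arcs on which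
`f` has the order `≥ N` satisfy a recursion for each of the two groups. This gives two formulas for
the motivic zeta function, one with the denominator of `-(n + 1)/d`, and one with the denominator of
`-(∑ a_i)/e` instead (for infinitely many values of `(∑ a_i)/e`). The error terms come from arcs with origin
outside of `0`: near the singular lines these are the volumes for the weighted homogeneous germs, and
away from them the order of the gradient of `f` is bounded, so that the volumes form a geometric series
(`stable`). (5) The pole `-(∑ w_i)/N` of a weighted homogeneous germ and `-1` are roots, again by (1), (2).
(6) A motivic zeta function with two such formulas has no pole at `-(n + 1)/d`.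
-/

set_option autoImplicit false

namespace Pool.Agent.Results.MP_b07157_ag.FormsLocallyWH

open MvPolynomial Pool.Agent.H940.G Pool.Agent.H940.P
open Pool.Agent.W375.MG (zetaOrd IsPole)
open Pool.Agent.H628R4.TP (IsBFunction IsLocalBFunction)

/-- **Q1 and Q2 for forms with only weighted homogeneous isolated projective singularities.**

`f ≠ 0` is a form of degree `d ≥ 2` in `n + 1` variables. For every singular point of the projective
hypersurface, with the coordinates `x_i = 1` and `q` (all partial derivatives of `f` vanish there), the germ
`germAt i q f` of the dehomogenized form is weighted homogeneous with an isolated critical point in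
suitable formal coordinates (`WHG`).

First part (Q1): every pole of the motivic zeta function of `f` is a root of every `b` with
`b(s) f ^ s = P(s) f ^ (s + 1)`, `P(s)` in the Weyl algebra, polynomial in `s` (for instance `b = b_f`).
Second part (Q2): every pole of the local motivic zeta function of `f` at the origin is a root of every `b`
with `b(s) f ^ s = P(s) f ^ (s + 1)`, where `P(s)` is a differential operator with formal power series
coefficients, polynomial in `s` (for instance `b = b_{f,0}`). `zetaOrd f W` is the motivic zeta function of
Denef and Loeser for the arcs with origin in `W`, defined by the jets, and a pole is defined as in the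
problem. -/
theorem result {n : ℕ} (f : MvPolynomial (Fin (n + 1)) ℂ) (hf0 : f ≠ 0) (d : ℕ) (hd : 2 ≤ d)
    (hf : f.IsHomogeneous d)
    (H : ∀ (i : Fin (n + 1)) (q : Fin n → ℂ), (∀ j, eval (i.insertNth 1 q) (pderiv j f) = 0) →
      ∃ (g : MvPolynomial (Fin n) ℂ) (w : Fin n → ℕ) (N : ℕ)
        (η : Fin n → MvPowerSeries (Fin n) ℂ), WHG (germAt i q f) g w N η) :
    (∀ s₀ : ℚ, IsPole (zetaOrd f Set.univ) s₀ → ∀ b : Polynomial ℂ, IsBFunction f b →
      b.eval (s₀ : ℂ) = 0) ∧
    ∀ s₀ : ℚ, IsPole (zetaOrd f {0}) s₀ → ∀ b : Polynomial ℂ, IsLocalBFunction f b →
      b.eval (s₀ : ℂ) = 0 := by
  refine ⟨fun s₀ hs b hb => ma_pole (ma_of_av hf fun hL => av_lh hL hd hf hf0 H) s₀ hs b hb,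
    fun s₀ hs b hb => mal_pole (mal_of_av hf fun hL => av_lh hL hd hf hf0 H) ?_ s₀ hs b hb⟩
  have h1 := Pool.Agent.H940.LT.eval_homog f d hf (0 : ℂ) (0 : Fin (n + 1) → ℂ)
  rw [zero_smul, zero_pow (by omega), zero_mul] at h1
  exact h1

end Pool.Agent.Results.MP_b07157_ag.FormsLocallyWH
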