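import Pool.Agent.H941.TF.Wrap
import Pool.Agent.H941.SC.Curve

set_option autoImplicit false

/-! # The strong motivic monodromy conjecture for forms with transversal components

Let `f` be a form of degree `d` in three variables, of one of the following two types:

* `SmoothComp`: `f = h ^ m g`, where `h` is a form of degree `e ≥ 2` such that the curve `h = 0` is
  smooth, `m ≥ 1`, and `g` is an ARBITRARY form: the only condition is that the reduced curve `G = 0`
  of the zeros of `g` is transversal to the curve `h = 0`;
* `TwoLines`: `f = l₀ ^ m₀ l₁ ^ m₁ g`, where `l₀`, `l₁` are linear forms with different lines of zeros,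
  `m₀, m₁ ≥ 1`, and `g` is an ARBITRARY form: the only condition is that the curve `g = 0`, which has
  the degree `N ≥ 2` as a reduced curve, meets each of the two lines in `N` different points and does
  not contain the intersection point of the two lines.

There is no condition on the multiplicities of the components of `g = 0` and on the singularities
of this curve (which may be as bad as one likes, and not quasi-homogeneous), and the smooth curve
need not be generic.

We prove Q1 and Q2 for these `f`. The global and the local motivic zeta functions of `f` are computed
from the curve `f = 0` in the projective plane by blowing up points, see `ConeGlobalMot` and `ConeMot`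
(for the principal ideal `(f)`). All poles except possibly `-3/d` are known to be roots of `b_f`
(`proj_of`, in the starting library), so that the question is whether `b_f(-3/d) = 0`.

The proof of `b(-3/d) = 0` for `SmoothComp`; put `s = -3/d` and let `s < 0` be no root of `b`, and
`3 m ≠ d` (if `3 m = d`, then `-3/d = -1/m` is a root, which comes from the smooth curve, `curve_root'`):

* `bertini`: a line meets the reduced curve `Q = h G = 0` in `N = deg Q` points; let it be the line at
  infinity for the affine coordinates `t = x₀`, `x₁ = 1`, `x = x₂`;
* `exact_two'`, `dat`: the functional equation gives (by `root_of_not_exact`, in the library)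
  `f ^ s = ∂_t (P f ^ (s - K)) + ∂_x (R f ^ (s - K))` with polynomials; over the field `ℂ(t)` the
  order of the pole along `Q = 0` can be reduced to one;
* `Dat.ode`, `fin_pt`, `lim_inf'`: let `a_1(t), …, a_N(t)` be the roots of `Q(t, 1, x)`. The residues
  `y_j(t)` of the primitive at these roots satisfy a linear differential system. As all exponents
  are negative, an energy identity shows that they are bounded at all finite points, and
  that `y_j = O(t ^ 3)` at infinity;
* `poly`: so the primitive `f ^ s = ∂_t (p f ^ s / Q) + ∂_x (ρ f ^ s / Q)` has polynomials `p, ρ`;
* `step1`, `step3`: there is a polynomial `Z` of the total degree at most three, such that, after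
  subtracting `∂_t (∂_x (Z f ^ s)) - ∂_x (∂_t (Z f ^ s))`, the vector field `(p, ρ)` vanishes twice on
  the curve `h = 0`. Here the smoothness, the transversality, and `3 m ≠ d` are used;
* `Full.fin`, `Full.inf`, `van`: the functions `(y_j - Z(t, a_j)) / h(t, a_j) ^ 2` on the curve `G = 0`
  are bounded at all finite points, and have the limit `0` at infinity, because `2 e > 3`. By the
  theorem of Liouville they are `0`;
* `fin_alg`: then the primitive is of the form `∂_t (∂_x (Z f ^ s)) - ∂_x (∂_t (Z f ^ s))` up to a
  vector field of too large degree, and this is a contradiction.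

The proof for `TwoLines`, where the two lines are `t = 0` and `t = ∞` and `(0 : 0 : 1)` is their
point of intersection (`stage0`, `Cl.red`, `normal`, `special`, `point`, `Data.ode`, `loc`,
`energy`, `contra`): with `e = s m₀`, the residues satisfy
`y_j' + (e / t) y_j + ∑_i b_i (y_j - y_i) (a_j - a_i)' / (a_j - a_i) = a_j' t / (e + 1)`, where
`b_i = s n_i < 0`. By the energy identity `y_i(t₀) = y_j(t₀)` if `a_i(t₀) = a_j(t₀)`, `t₀ ≠ 0, ∞`. The
functions `z_j = y_j / t ^ 2` are bounded at `t = 0`, and have DIFFERENT limits at `t = ∞`. So the
symmetric function `∏_{i ≠ j} (z_i - z_j)` is a constant which is not zero. Therefore the `a_j(t₀)`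
are different for all `t₀`; then `1 / ∏_{i ≠ j} (a_i - a_j)` is an entire function with the limit `0`
at infinity, a contradiction.
-/

namespace Pool.Agent.Results.MP_b07157_ag.TransversalComponents

open MvPolynomial Pool.Agent.W574.CN Pool.Agent.W574.MO Pool.Agent.H628R4.TP
  Pool.Agent.Helper748.MC Pool.Agent.H941.TF Pool.Agent.H941.SC

/-- **The strong motivic monodromy conjecture (global and local) holds for the forms `f` of degree
`d` in three variables of the following types**:

* `SmoothComp`: `f = h ^ m g`, `m ≥ 1`, where `h = 0` is a smooth curve of degree at least two, and the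
  (reduced) curve `g = 0` is transversal to it;
* `TwoLines`: `f = l₀ ^ m₀ l₁ ^ m₁ g`, `m₀, m₁ ≥ 1`, where the (reduced) curve `g = 0` has a degree at
  least two, is transversal to the two different lines `l₀ = 0` and `l₁ = 0` and does not contain
  their point of intersection.

Here `b` is any polynomial which satisfies a global or local functional equation
`b(s) f ^ s = P(s) f ^ (s + 1)`, in particular the Bernstein-Sato polynomial of `f` or the local one at
the origin, and `Z` is the global or local motivic zeta function of `f`. The conclusion is that
`-3/d` is a root of `b`, and that `Z` lies in the ring `M[T][(1 - L⁻ⁿ Tᵃ)⁻¹]`, where the pairs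
`a, n ≥ 1` are such that `-n/a` is a root of `b`. -/
theorem result {M : Type} [CommRing M] (L : Mˣ) (f : MvPolynomial (Fin 3) ℂ) (d : ℕ)
    (hf : f.IsHomogeneous d) (h : (∃ m, SmoothComp m f) ∨ TwoLines f) (b : Polynomial ℂ)
    (hb : IsBFunction f b ∨ IsLocalBFunction f b) :
    b.eval (-3 / d : ℂ) = 0 ∧ ∀ Z : PowerSeries M,
      (ConeGlobalMot L (fun _ : Unit => f) d Z ∨ ConeMot L (fun _ : Unit => f) d Z) →
        Z ∈ DenRing L (RootPair b) := by
  have h1 : 0 < d ∧ f ≠ 0 ∧ (IsBFunction f b → b.eval (-3 / d : ℂ) = 0) := by
    rcases h with ⟨m, h⟩ | h
    · exact ⟨h.deg hf, h.ne, fun hb => smooth_single hf h b hb⟩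
    · have h1 := not_exact_lines hf h
      exact ⟨h1.1, h1.2.1, fun hb => lines_single f d hf h b hb⟩
  obtain ⟨hd, hf0, hr⟩ := h1
  exact ⟨hr (glob hf0 hf hb), fun Z hZ => mot_single L f d hd hf0 hf b hb hr Z hZ⟩

end Pool.Agent.Results.MP_b07157_ag.TransversalComponents
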